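import Pool.Agent.Run7.h567.PD.Iface

set_option autoImplicit false

namespace Run7.h596.PD

open Matrix Polynomial MeasureTheory Run7.h567.GO Run7.h567.PD

/-- Schur's lemma -/
theorem schur {Γ : Type} [Group Γ] {E : Type} [Field E] [IsAlgClosed E] {n : ℕ}
    (ρ : MRep Γ E n) (hρ : Irred ρ) (B : Matrix (Fin n) (Fin n) E)
    (hB : ∀ g, B * ρ g = ρ g * B) : ∃ l : E, B = l • 1 := by
  have : NeZero n := ⟨hρ.1.ne'⟩
  obtain ⟨μ, hμ⟩ := Module.End.exists_eigenvalue (Matrix.toLin' B)
  refine ⟨μ, ?_⟩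
  have hU := hρ.2 (Module.End.eigenspace (Matrix.toLin' B) μ) (by
    intro g u hu
    rw [Module.End.mem_eigenspace_iff, Matrix.toLin'_apply] at hu ⊢
    rw [Matrix.mulVec_mulVec, hB, ← Matrix.mulVec_mulVec, hu, Matrix.mulVec_smul])
  have hT := hU.resolve_left hμ
  apply Matrix.toLin'.injective
  apply LinearMap.ext
  intro v
  have hv : v ∈ Module.End.eigenspace (Matrix.toLin' B) μ := by rw [hT]; trivial
  rw [Module.End.mem_eigenspace_iff] at hv
  rw [hv, Matrix.toLin'_apply, Matrix.smul_mulVec, Matrix.one_mulVec]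

theorem char_ne_zero {Γ : Type} [Group Γ] {E : Type} [Field E] (a : Γ →* E) (g : Γ) : a g ≠ 0 := by
  intro h
  have h1 : a g * a g⁻¹ = 1 := by rw [← map_mul, mul_inv_cancel, map_one]
  rw [h, zero_mul] at h1
  exact zero_ne_one h1

theorem det_ne_zero {Γ : Type} [Group Γ] {E : Type} [Field E] {n : ℕ} (S : MRep Γ E n) (g : Γ) :
    (S g).det ≠ 0 := char_ne_zero (detR S) g

/-- a matrix which intertwines up to characters is scalar -/
theorem scalar {Γ : Type} [Group Γ] {E : Type} [Field E] [IsAlgClosed E] {n : ℕ}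
    (S : MRep Γ E n) (hS : SI S) (B : Matrix (Fin n) (Fin n) E) (hdet : B.det ≠ 0) (a b : Γ →* E)
    (hab : ∀ g, a g • (B * S g) = b g • (S g * B)) : ∃ l : E, B = l • 1 := by
  have hn : 0 < n := (hS ⊤ inferInstance).1
  have hpow : ∀ g, a g ^ n = b g ^ n := by
    intro g
    have h1 := congrArg Matrix.det (hab g)
    rw [Matrix.det_smul, Matrix.det_smul, Matrix.det_mul, Matrix.det_mul, Fintype.card_fin] at h1
    have h2 : (a g ^ n - b g ^ n) * (B.det * (S g).det) = 0 := by linear_combination h1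
    rcases mul_eq_zero.mp h2 with h3 | h3
    · exact sub_eq_zero.mp h3
    · exact absurd h3 (mul_ne_zero hdet (det_ne_zero S g))
  set c : Γ →* Eˣ := b.toHomUnits * (a.toHomUnits)⁻¹ with hc
  have hcg : ∀ g, ((c g : Eˣ) : E) = b g * (a g)⁻¹ := by
    intro g
    simp [hc]
  have hcn : ∀ g, c g ^ n = 1 := by
    intro g
    ext
    rw [Units.val_pow_eq_pow_val, hcg, mul_pow, ← hpow, ← mul_pow,
      mul_inv_cancel₀ (char_ne_zero a g), one_pow, Units.val_one]
  have : NeZero n := ⟨hn.ne'⟩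
  have : Finite c.range := by
    have h1 : c.range ≤ rootsOfUnity n E := by
      rintro _ ⟨g, rfl⟩
      exact (mem_rootsOfUnity n _).mpr (hcn g)
    exact Finite.of_injective (Subgroup.inclusion h1) (Subgroup.inclusion_injective h1)
  have hK : c.ker.FiniteIndex := Subgroup.finiteIndex_ker c
  refine schur (res S c.ker) (hS c.ker hK) B ?_
  rintro ⟨g, hg⟩
  have h1 : b g * (a g)⁻¹ = 1 := by
    rw [← hcg, MonoidHom.mem_ker.mp hg, Units.val_one]
  have h2 : b g = a g := by
    have := char_ne_zero a g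
    field_simp at h1
    exact h1
  have h3 := hab g
  rw [h2] at h3
  exact smul_right_injective _ (char_ne_zero a g) h3

theorem core {Γ : Type} [Group Γ] {E : Type} [Field E] [IsAlgClosed E] (V W : MRep Γ E 2)
    (H : Subgroup Γ) [H.Normal] [H.FiniteIndex] (hV : SI V) (ψ : H →* E)
    (h : ∀ x : H, W x = ψ x • V x) (g : Γ) : ∃ c : E, W g = c • V g := by
  obtain ⟨l, hl⟩ := scalar (Run7.h567.PD.res V H) (SI.res hV H) (V g⁻¹ * W g)
    (by rw [Matrix.det_mul]; exact mul_ne_zero (det_ne_zero V _) (det_ne_zero W _))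
    ψ (ψ.comp (MulAut.conjNormal g : MulAut H).toMonoidHom) (by
      intro x
      set y : H := (MulAut.conjNormal g : MulAut H) x with hy
      have hyv : (y : Γ) = g * x * g⁻¹ := by
        rw [hy]; exact MulAut.conjNormal_apply g x
      have h1 : W g * W x = W y * W g := by
        rw [← map_mul, ← map_mul, hyv]
        congr 1
        group
      rw [h x, h y] at h1
      have h2 : V g⁻¹ * V y = V x * V g⁻¹ := by
        rw [← map_mul, ← map_mul, hyv]
        congr 1
        group
      change ψ x • (V g⁻¹ * W g * V x) = ψ y • (V x * (V g⁻¹ * W g))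
      calc ψ x • (V g⁻¹ * W g * V x) = V g⁻¹ * (W g * (ψ x • V x)) := by
            rw [Matrix.mul_smul, Matrix.mul_smul, Matrix.mul_assoc]
        _ = V g⁻¹ * (ψ y • V y * W g) := by rw [h1]
        _ = ψ y • (V x * (V g⁻¹ * W g)) := by
            rw [Matrix.smul_mul, Matrix.mul_smul, ← Matrix.mul_assoc, h2, Matrix.mul_assoc])
  refine ⟨l, ?_⟩
  have h3 : V g * (V g⁻¹ * W g) = W g := by
    rw [← Matrix.mul_assoc, ← map_mul, mul_inv_cancel, map_one, Matrix.one_mul]
  rw [← h3, hl, Matrix.mul_smul, Matrix.mul_one]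

theorem t_EXT : S_EXT := by
  intro Γ _ E _ _ _ V W H _ _ hV hψ
  obtain ⟨ψ, P, hP, hψ⟩ := hψ
  have hPu : IsUnit P.det := isUnit_iff_ne_zero.mpr hP
  have e1 : P * P⁻¹ = 1 := Matrix.mul_nonsing_inv P hPu
  have e2 : P⁻¹ * P = 1 := Matrix.nonsing_inv_mul P hPu
  let W' : MRep Γ E 2 :=
    { toFun := fun g => P⁻¹ * W g * P
      map_one' := by rw [map_one, Matrix.mul_one, e2]
      map_mul' := fun g h => by
        rw [map_mul]
        calc P⁻¹ * (W g * W h) * P = P⁻¹ * W g * 1 * W h * P := by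
              rw [Matrix.mul_one]; simp only [Matrix.mul_assoc]
          _ = P⁻¹ * W g * (P * P⁻¹) * W h * P := by rw [e1]
          _ = P⁻¹ * W g * P * (P⁻¹ * W h * P) := by simp only [Matrix.mul_assoc] }
  have hW' : ∀ g, W' g = P⁻¹ * W g * P := fun g => rfl
  have hres : ∀ x : H, W' x = ψ x • V x := by
    intro x
    have h1 := hψ x
    change W x * P = ψ x • (P * V x) at h1
    rw [hW', Matrix.mul_assoc, h1, Matrix.mul_smul, ← Matrix.mul_assoc, e2, Matrix.one_mul]
  choose f hf using core V W' H hV ψ hres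
  have hne : ∀ g, V g ≠ 0 := by
    intro g h0
    apply det_ne_zero V g
    rw [h0, Matrix.det_zero]
  refine ⟨{ toFun := f, map_one' := ?_, map_mul' := ?_ }, P, hP, ?_⟩
  · have h1 := hf 1
    rw [map_one, map_one] at h1
    have h2 : f 1 • (1 : Matrix (Fin 2) (Fin 2) E) = (1 : E) • (1 : Matrix (Fin 2) (Fin 2) E) := by
      rw [← h1, one_smul]
    exact smul_left_injective E one_ne_zero h2
  · intro g h
    have h1 := hf (g * h)
    rw [map_mul, map_mul, hf g, hf h, smul_mul_smul_comm] at h1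
    have h2 : f (g * h) • (V g * V h) = (f g * f h) • (V g * V h) := h1.symm
    have h3 : V g * V h ≠ 0 := by rw [← map_mul]; exact hne _
    exact smul_left_injective E h3 h2
  · intro g
    have h1 := hf g
    rw [hW'] at h1
    calc W g * P = (P * P⁻¹) * (W g * P) := by rw [e1, Matrix.one_mul]
      _ = P * (P⁻¹ * W g * P) := by simp only [Matrix.mul_assoc]
      _ = f g • (P * V g) := by rw [h1, Matrix.mul_smul]

end Run7.h596.PD
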