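import Pool.Agent.Run7.h596.PD.EXT

set_option autoImplicit false

namespace Run7.h596.PD

open Matrix Polynomial MeasureTheory Run7.h567.GO Run7.h567.PD

/-- twice the quadratic form -/
def BB (E : Type) [Field E] : Matrix (Fin 3) (Fin 3) E := !![0, 0, 1; 0, -2, 0; 1, 0, 0]

/-- its inverse -/
def BI (E : Type) [Field E] : Matrix (Fin 3) (Fin 3) E := !![0, 0, 1; 0, -1 / 2, 0; 1, 0, 0]

theorem BI_BB (E : Type) [Field E] [CharZero E] : BI E * BB E = 1 := by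
  ext i j
  fin_cases i <;> fin_cases j <;> simp [BI, BB, Matrix.mul_apply, Fin.sum_univ_three]

theorem BB_BI (E : Type) [Field E] [CharZero E] : BB E * BI E = 1 :=
  _root_.mul_eq_one_comm.mp (BI_BB E)

theorem q_eq {E : Type} [Field E] (v : Fin 3 → E) : v ⬝ᵥ (BB E *ᵥ v) = 2 * q v := by
  simp [q, BB, Matrix.mulVec, dotProduct, Fin.sum_univ_three]
  ring

theorem sq_BB {E : Type} [Field E] (A : Matrix (Fin 2) (Fin 2) E) :
    (Run7.h567.PD.sq A)ᵀ * BB E * Run7.h567.PD.sq A = A.det ^ 2 • BB E := by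
  ext i j
  fin_cases i <;> fin_cases j <;>
    simp [Run7.h567.PD.sq, BB, Matrix.mul_apply, Fin.sum_univ_three, Matrix.det_fin_two] <;> ring

theorem sq_BI {E : Type} [Field E] [CharZero E] (A : Matrix (Fin 2) (Fin 2) E) :
    Run7.h567.PD.sq A * BI E * (Run7.h567.PD.sq A)ᵀ = A.det ^ 2 • BI E := by
  ext i j
  fin_cases i <;> fin_cases j <;>
    simp [Run7.h567.PD.sq, BI, Matrix.mul_apply, Fin.sum_univ_three, Matrix.det_fin_two] <;> ring

theorem t_PROJ1 : S_PROJ1 := by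
  intro Γ _ E _ _ _ V W c Φ hV hΦ h
  set T : Matrix (Fin 3) (Fin 3) E := BI E * (Φᵀ * BB E * Φ) with hT
  have hS : SI (sym2 V) := fun H hH => hV H hH
  have dBI : (BI E).det ≠ 0 := by
    intro h0
    have := congrArg Matrix.det (BI_BB E)
    rw [Matrix.det_mul, h0, zero_mul, Matrix.det_one] at this
    exact zero_ne_one this
  have dBB : (BB E).det ≠ 0 := by
    intro h0
    have := congrArg Matrix.det (BI_BB E)
    rw [Matrix.det_mul, h0, mul_zero, Matrix.det_one] at this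
    exact zero_ne_one this
  have hTd : T.det ≠ 0 := by
    rw [hT, Matrix.det_mul, Matrix.det_mul, Matrix.det_mul, Matrix.det_transpose]
    exact mul_ne_zero dBI (mul_ne_zero (mul_ne_zero hΦ dBB) hΦ)
  obtain ⟨l, hl⟩ := scalar (sym2 V) hS T hTd (detR V ^ 2 * c ^ 2) (detR W ^ 2) (by
    intro g
    change ((V g).det ^ 2 * c g ^ 2) • (T * Run7.h567.PD.sq (V g)) = ((W g).det ^ 2) • (Run7.h567.PD.sq (V g) * T)
    have h1 : (c g ^ 2) • ((Run7.h567.PD.sq (V g))ᵀ * (Φᵀ * BB E * Φ) * Run7.h567.PD.sq (V g)) =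
        ((W g).det ^ 2) • (Φᵀ * BB E * Φ) := by
      have e1 : (c g ^ 2) • ((Run7.h567.PD.sq (V g))ᵀ * (Φᵀ * BB E * Φ) * Run7.h567.PD.sq (V g)) =
          (c g • (Φ * Run7.h567.PD.sq (V g)))ᵀ * BB E * (c g • (Φ * Run7.h567.PD.sq (V g))) := by
        rw [Matrix.transpose_smul, Matrix.transpose_mul, Matrix.smul_mul, Matrix.smul_mul,
          Matrix.mul_smul, smul_smul, ← pow_two]
        simp only [Matrix.mul_assoc]
      rw [e1, h g, Matrix.transpose_mul]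
      calc Φᵀ * (Run7.h567.PD.sq (W g))ᵀ * BB E * (Run7.h567.PD.sq (W g) * Φ)
          = Φᵀ * ((Run7.h567.PD.sq (W g))ᵀ * BB E * Run7.h567.PD.sq (W g)) * Φ := by simp only [Matrix.mul_assoc]
        _ = _ := by rw [sq_BB, Matrix.mul_smul, Matrix.smul_mul]
    calc ((V g).det ^ 2 * c g ^ 2) • (T * Run7.h567.PD.sq (V g))
        = (c g ^ 2) • (((V g).det ^ 2 • BI E) * (Φᵀ * BB E * Φ) * Run7.h567.PD.sq (V g)) := by
          rw [hT, Matrix.smul_mul, Matrix.smul_mul, smul_smul, mul_comm]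
      _ = (c g ^ 2) • ((Run7.h567.PD.sq (V g) * BI E * (Run7.h567.PD.sq (V g))ᵀ) * (Φᵀ * BB E * Φ) * Run7.h567.PD.sq (V g)) := by
          rw [sq_BI]
      _ = Run7.h567.PD.sq (V g) * (BI E * ((c g ^ 2) • ((Run7.h567.PD.sq (V g))ᵀ * (Φᵀ * BB E * Φ) * Run7.h567.PD.sq (V g)))) := by
          rw [Matrix.mul_smul, Matrix.mul_smul]
          simp only [Matrix.mul_assoc]
      _ = ((W g).det ^ 2) • (Run7.h567.PD.sq (V g) * T) := by
          rw [h1, Matrix.mul_smul, Matrix.mul_smul, hT])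
  have hl0 : l ≠ 0 := by
    intro h0
    rw [h0, zero_smul] at hl
    rw [hl, Matrix.det_zero] at hTd
    exact hTd rfl
  refine ⟨l, hl0, fun v => ?_⟩
  have e2 : Φᵀ * BB E * Φ = l • BB E := by
    calc Φᵀ * BB E * Φ = BB E * BI E * (Φᵀ * BB E * Φ) := by rw [BB_BI, Matrix.one_mul]
      _ = BB E * T := by rw [hT, Matrix.mul_assoc]
      _ = l • BB E := by rw [hl, Matrix.mul_smul, Matrix.mul_one]
  have e3 : 2 * q (Φ *ᵥ v) = 2 * (l * q v) := by
    rw [← q_eq]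
    calc (Φ *ᵥ v) ⬝ᵥ (BB E *ᵥ (Φ *ᵥ v)) = v ⬝ᵥ ((Φᵀ * BB E * Φ) *ᵥ v) := by
          rw [← Matrix.mulVec_mulVec, ← Matrix.mulVec_mulVec, Matrix.dotProduct_mulVec v Φᵀ,
            Matrix.vecMul_transpose]
      _ = l * (v ⬝ᵥ (BB E *ᵥ v)) := by
          rw [e2, Matrix.smul_mulVec, dotProduct_smul, smul_eq_mul]
      _ = 2 * (l * q v) := by rw [q_eq]; ring
  exact mul_left_cancel₀ two_ne_zero e3

end Run7.h596.PD
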